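import Pool.Agent.H84.GL.Basic

/-!
# Deterministic recursions in the quadrant model
-/

namespace Pool.Agent.H54.GL

open Pool.Agent.H84.GL Pool.Agent.H99.NS

/-! ## Equations -/

theorem r0 (w : ℕ → ℕ → ℕ) : Gq w 0 0 = w 0 0 := by rw [Gq]
theorem rb (w : ℕ → ℕ → ℕ) (a : ℕ) : Gq w (a+1) 0 = Gq w a 0 + w (a+1) 0 := by rw [Gq]
theorem rl (w : ℕ → ℕ → ℕ) (b : ℕ) : Gq w 0 (b+1) = Gq w 0 b + w 0 (b+1) := by rw [Gq]
theorem rr (w : ℕ → ℕ → ℕ) (a b : ℕ) : Gq w (a+1) (b+1) =
    max (Gq w a (b+1)) (Gq w (a+1) b) + w (a+1) (b+1) := by rw [Gq]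
theorem g0 (I J : ℕ → ℕ) (W : ℕ × ℕ → ℕ) : GB I J W 0 0 = 0 := by rw [GB]
theorem gb (I J : ℕ → ℕ) (W : ℕ × ℕ → ℕ) (a : ℕ) : GB I J W (a+1) 0 = GB I J W a 0 + I a := by
  rw [GB]
theorem gl (I J : ℕ → ℕ) (W : ℕ × ℕ → ℕ) (b : ℕ) : GB I J W 0 (b+1) = GB I J W 0 b + J b := by
  rw [GB]
theorem gr (I J : ℕ → ℕ) (W : ℕ × ℕ → ℕ) (a b : ℕ) : GB I J W (a+1) (b+1) =
    max (GB I J W a (b+1)) (GB I J W (a+1) b) + W (a, b) := by rw [GB]

/-! ## Transposition -/

theorem Gq_tr (w : ℕ → ℕ → ℕ) : ∀ a b : ℕ, Gq w a b = Gq (fun i j => w j i) b a := by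
  intro a
  induction a with
  | zero =>
    intro b
    induction b with
    | zero => rw [r0, r0]
    | succ b ih => rw [rl, rb, ih]
  | succ a iha =>
    intro b
    induction b with
    | zero => rw [rb, rl, iha 0]
    | succ b ihb =>
      rw [rr, rr, iha (b+1), ihb, max_comm]

theorem GB_tr (I J : ℕ → ℕ) (W : ℕ × ℕ → ℕ) : ∀ a b : ℕ, GB I J W a b = GB J I (tr W) b a := by
  intro a
  induction a with
  | zero =>
    intro b
    induction b with
    | zero => rw [g0, g0]
    | succ b ih => rw [gl, gb, ih]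
  | succ a iha =>
    intro b
    induction b with
    | zero => rw [gb, gl, iha 0]
    | succ b ihb =>
      rw [gr, gr, iha (b+1), ihb, max_comm]
      rfl

theorem pf_TRA : T_TRA := by
  intro I J W a b
  exact ⟨GB_tr I J W a b, Gq_tr _ a b⟩

/-! ## Recursions of the exit parts -/

theorem LBs1 (W : ℕ × ℕ → ℕ) (k a b : ℕ) (hk : k ≤ a) :
    LB (hs k W) (a + 1 - k) (b + 1) =
      max (LB (hs k W) (a - k) (b + 1)) (LB (hs k W) (a + 1 - k) b) + W (a + 1, b + 1) := by
  have e : a + 1 - k = (a - k) + 1 := by omega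
  rw [e]
  unfold LB
  simp only [Gq, hs]
  have e2 : a - k + 1 + k = a + 1 := by omega
  rw [e2]

theorem LBs2 (W : ℕ × ℕ → ℕ) (k a : ℕ) (hk : k ≤ a) :
    LB (hs k W) (a + 1 - k) 0 = LB (hs k W) (a - k) 0 + W (a + 1, 0) := by
  have e : a + 1 - k = (a - k) + 1 := by omega
  rw [e]
  unfold LB
  simp only [Gq, hs]
  have e2 : a - k + 1 + k = a + 1 := by omega
  rw [e2]

theorem LBs3 (W : ℕ × ℕ → ℕ) (a b : ℕ) :
    LB (hs a W) (a - a) (b + 1) = LB (hs a W) (a - a) b + W (a, b + 1) := by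
  unfold LB
  simp only [Nat.sub_self, Gq, hs, Nat.zero_add]

theorem LBs4 (W : ℕ × ℕ → ℕ) (a : ℕ) :
    LB (hs a W) (a - a) 0 = W (a, 0) := by
  unfold LB
  simp only [Nat.sub_self, Gq, hs, Nat.zero_add]

theorem Gh_le_iff (I : ℕ → ℕ) (W : ℕ × ℕ → ℕ) (k0 a b c : ℕ) :
    Gh I W k0 a b ≤ c ↔ ∀ k, k0 ≤ k → k ≤ a →
      ∑ i ∈ Finset.range (k+1), I i + LB (hs k W) (a - k) b ≤ c := by
  unfold Gh
  rw [Finset.sup_le_iff]
  constructor
  · intro h k h1 h2
    exact h k (Finset.mem_Icc.2 ⟨h1, h2⟩)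
  · intro h k hk
    exact h k (Finset.mem_Icc.1 hk).1 (Finset.mem_Icc.1 hk).2

theorem le_Gh (I : ℕ → ℕ) (W : ℕ × ℕ → ℕ) (k0 a b k : ℕ) (h1 : k0 ≤ k) (h2 : k ≤ a) :
    ∑ i ∈ Finset.range (k+1), I i + LB (hs k W) (a - k) b ≤ Gh I W k0 a b :=
  (Gh_le_iff I W k0 a b _).1 le_rfl k h1 h2

theorem h1 (I : ℕ → ℕ) (W : ℕ × ℕ → ℕ) : Gh I W 0 0 0 = I 0 + W (0, 0) := by
  obtain ⟨k, _, hk, e⟩ := Gh_attained I W 0 0 0 le_rfl
  have : k = 0 := by omega
  subst this
  rw [e, LBs4 W 0]
  simp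

theorem h2 (I : ℕ → ℕ) (W : ℕ × ℕ → ℕ) (a b : ℕ) :
    Gh I W 0 (a+1) (b+1) = max (Gh I W 0 a (b+1)) (Gh I W 0 (a+1) b) + W (a+1, b+1) := by
  apply le_antisymm
  · rw [Gh_le_iff]
    intro k _ hk
    rcases Nat.lt_or_ge a k with h | h
    · have hk' : k = a + 1 := by omega
      subst hk'
      have h3 := LBs3 W (a+1) b
      have h4 := le_Gh I W 0 (a+1) b (a+1) (Nat.zero_le _) le_rfl
      omega
    · have h3 := LBs1 W k a b h
      have h4 := le_Gh I W 0 (a+1) b k (Nat.zero_le _) hk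
      have h5 := le_Gh I W 0 a (b+1) k (Nat.zero_le _) h
      omega
  · have A : Gh I W 0 a (b+1) + W (a+1, b+1) ≤ Gh I W 0 (a+1) (b+1) := by
      obtain ⟨k, _, hk, e⟩ := Gh_attained I W 0 a (b+1) (Nat.zero_le _)
      have h3 := LBs1 W k a b hk
      have h4 := le_Gh I W 0 (a+1) (b+1) k (Nat.zero_le _) (by omega)
      omega
    have B : Gh I W 0 (a+1) b + W (a+1, b+1) ≤ Gh I W 0 (a+1) (b+1) := by
      obtain ⟨k, _, hk, e⟩ := Gh_attained I W 0 (a+1) b (Nat.zero_le _)
      have h4 := le_Gh I W 0 (a+1) (b+1) k (Nat.zero_le _) hk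
      rcases Nat.lt_or_ge a k with h | h
      · have hk' : k = a + 1 := by omega
        subst hk'
        have h3 := LBs3 W (a+1) b
        omega
      · have h3 := LBs1 W k a b h
        omega
    omega

theorem h3 (I : ℕ → ℕ) (W : ℕ × ℕ → ℕ) (b : ℕ) :
    Gh I W 0 0 (b+1) = Gh I W 0 0 b + W (0, b+1) := by
  have h3 := LBs3 W 0 b
  apply le_antisymm
  · rw [Gh_le_iff]
    intro k _ hk
    have hk' : k = 0 := by omega
    subst hk'
    have h4 := le_Gh I W 0 0 b 0 le_rfl le_rfl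
    omega
  · obtain ⟨k, _, hk, e⟩ := Gh_attained I W 0 0 b le_rfl
    have hk' : k = 0 := by omega
    subst hk'
    have h4 := le_Gh I W 0 0 (b+1) 0 le_rfl le_rfl
    omega

theorem h4 (I : ℕ → ℕ) (W : ℕ × ℕ → ℕ) (a : ℕ) :
    Gh I W 0 (a+1) 0 = max (Gh I W 0 a 0) (∑ i ∈ Finset.range (a+2), I i) + W (a+1, 0) := by
  have e4 := LBs4 W (a+1)
  apply le_antisymm
  · rw [Gh_le_iff]
    intro k _ hk
    rcases Nat.lt_or_ge a k with h | h
    · have hk' : k = a + 1 := by omega
      subst hk'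
      have C : ∑ i ∈ Finset.range (a+1+1), I i = ∑ i ∈ Finset.range (a+2), I i := rfl
      omega
    · have h3 := LBs2 W k a h
      have h5 := le_Gh I W 0 a 0 k (Nat.zero_le _) h
      omega
  · have A : Gh I W 0 a 0 + W (a+1, 0) ≤ Gh I W 0 (a+1) 0 := by
      obtain ⟨k, _, hk, e⟩ := Gh_attained I W 0 a 0 (Nat.zero_le _)
      have h3 := LBs2 W k a hk
      have h4 := le_Gh I W 0 (a+1) 0 k (Nat.zero_le _) (by omega)
      omega
    have B := le_Gh I W 0 (a+1) 0 (a+1) (Nat.zero_le _) le_rfl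
    have C : ∑ i ∈ Finset.range (a+1+1), I i = ∑ i ∈ Finset.range (a+2), I i := rfl
    omega

/-! The same for the vertical axis. -/

theorem v1 (J : ℕ → ℕ) (W : ℕ × ℕ → ℕ) : Gv J W 0 0 0 = J 0 + W (0, 0) := h1 J (tr W)

theorem v2 (J : ℕ → ℕ) (W : ℕ × ℕ → ℕ) (a b : ℕ) :
    Gv J W 0 (a+1) (b+1) = max (Gv J W 0 a (b+1)) (Gv J W 0 (a+1) b) + W (a+1, b+1) := by
  have h := h2 J (tr W) b a
  rw [max_comm] at h
  exact h

theorem v3 (J : ℕ → ℕ) (W : ℕ × ℕ → ℕ) (a : ℕ) :
    Gv J W 0 (a+1) 0 = Gv J W 0 a 0 + W (a+1, 0) := h3 J (tr W) a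

theorem v4 (J : ℕ → ℕ) (W : ℕ × ℕ → ℕ) (b : ℕ) :
    Gv J W 0 0 (b+1) = max (Gv J W 0 0 b) (∑ j ∈ Finset.range (b+2), J j) + W (0, b+1) :=
  h4 J (tr W) b

theorem GB_left (I J : ℕ → ℕ) (W : ℕ × ℕ → ℕ) (b : ℕ) :
    GB I J W 0 b = ∑ j ∈ Finset.range b, J j := by
  induction b with
  | zero => simp [GB]
  | succ b ih => rw [Finset.sum_range_succ, ← ih, gl]

theorem GB_bot (I J : ℕ → ℕ) (W : ℕ × ℕ → ℕ) (a : ℕ) :
    GB I J W a 0 = ∑ i ∈ Finset.range a, I i := by
  induction a with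
  | zero => simp [GB]
  | succ a ih => rw [Finset.sum_range_succ, ← ih, gb]

theorem pf_EXI : T_EXI := by
  intro I J W a
  induction a with
  | zero =>
    intro b
    induction b with
    | zero =>
      rw [gr I J W 0 0, h1, v1, GB_left, GB_bot]
      simp only [Nat.zero_add, Finset.sum_range_one]
      omega
    | succ b ih =>
      have e := gr I J W 0 (b+1)
      have e1 := GB_left I J W (b+1+1)
      have e2 := h3 I W b
      have e3 := v4 J W b
      have C : ∑ i ∈ Finset.range (b+1+1), J i = ∑ i ∈ Finset.range (b+2), J i := rfl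
      omega
  | succ a iha =>
    intro b
    induction b with
    | zero =>
      have e := gr I J W (a+1) 0
      have e1 := GB_bot I J W (a+1+1)
      have e2 := h4 I W a
      have e3 := v3 J W a
      have e4 := iha 0
      have C : ∑ i ∈ Finset.range (a+1+1), I i = ∑ i ∈ Finset.range (a+2), I i := rfl
      omega
    | succ b ihb =>
      have e := gr I J W (a+1) (b+1)
      have e2 := h2 I W a b
      have e3 := v2 J W a b
      have e4 := iha (b+1)
      omega

/-! ## Late exit -/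

theorem hs_hs (k l : ℕ) (W : ℕ × ℕ → ℕ) : hs k (hs l W) = hs (k + l) W := by
  funext p
  simp only [hs]
  congr 2
  omega

theorem sum_split (I : ℕ → ℕ) (k0 k : ℕ) :
    ∑ i ∈ Finset.range (k0 + k), I i =
      ∑ i ∈ Finset.range k0, I i + ∑ i ∈ Finset.range k, I (i + k0) := by
  rw [Finset.sum_range_add]
  congr 1
  exact Finset.sum_congr rfl fun i _ => by rw [add_comm]

theorem pf_EXS : T_EXS := by
  intro I W k0 a b hk0
  apply le_antisymm
  · rw [Gh_le_iff]
    intro k h1 h2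
    have h := le_Gh (fun i => I (i + k0)) (hs k0 W) 0 (a - k0) b (k - k0) (Nat.zero_le _)
      (by omega)
    rw [hs_hs] at h
    have e1 : k - k0 + k0 = k := by omega
    have e2 : a - k0 - (k - k0) = a - k := by omega
    rw [e1, e2] at h
    have e3 : k + 1 = k0 + (k - k0 + 1) := by omega
    rw [e3, sum_split]
    omega
  · obtain ⟨k, _, hk, e⟩ := Gh_attained (fun i => I (i + k0)) (hs k0 W) 0 (a - k0) b
      (Nat.zero_le _)
    rw [e, hs_hs]
    have h := le_Gh I W k0 a b (k + k0) (by omega) (by omega)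
    have e2 : a - k0 - k = a - (k + k0) := by omega
    have e3 : k + k0 + 1 = k0 + (k + 1) := by omega
    rw [e3, sum_split] at h
    rw [e2]
    omega

/-! ## Crossing lemma -/

theorem l1 (W : ℕ × ℕ → ℕ) : LB W 0 0 = W (0, 0) := r0 _
theorem l2 (W : ℕ × ℕ → ℕ) (a b : ℕ) :
    LB W (a+1) (b+1) = max (LB W a (b+1)) (LB W (a+1) b) + W (a+1, b+1) := rr _ a b
theorem l3 (W : ℕ × ℕ → ℕ) (a : ℕ) : LB W (a+1) 0 = LB W a 0 + W (a+1, 0) := rb _ a
theorem l4 (W : ℕ × ℕ → ℕ) (b : ℕ) : LB W 0 (b+1) = LB W 0 b + W (0, b+1) := rl _ b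

theorem LB_mono (W : ℕ × ℕ → ℕ) (a b : ℕ) : LB W a b ≤ LB W (a+1) b ∧ LB W a b ≤ LB W a (b+1) := by
  constructor
  · cases b with
    | zero => have := l3 W a; omega
    | succ b => have := l2 W a b; omega
  · cases a with
    | zero => have := l4 W b; omega
    | succ a => have := l2 W a b; omega

theorem Gv_mono' (J : ℕ → ℕ) (W : ℕ × ℕ → ℕ) (a b : ℕ) :
    Gv J W 0 a b ≤ Gv J W 0 (a+1) b ∧ Gv J W 0 a b ≤ Gv J W 0 a (b+1) := by
  constructor
  · cases b with
    | zero => have := v3 J W a; omega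
    | succ b => have := v2 J W a b; omega
  · cases a with
    | zero => have := v4 J W b; omega
    | succ a => have := v2 J W a b; omega

theorem cross_step (J : ℕ → ℕ) (W : ℕ × ℕ → ℕ) (a b : ℕ)
    (H : Gv J W 0 (a+1) b + LB W a b ≤ Gv J W 0 a b + LB W (a+1) b)
    (V : LB W a (b+1) + Gv J W 0 a b ≤ Gv J W 0 a (b+1) + LB W a b) :
    (Gv J W 0 (a+1) (b+1) + LB W a (b+1) ≤ Gv J W 0 a (b+1) + LB W (a+1) (b+1)) ∧
    (LB W (a+1) (b+1) + Gv J W 0 (a+1) b ≤ Gv J W 0 (a+1) (b+1) + LB W (a+1) b) := by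
  have e1 := l2 W a b
  have e2 := v2 J W a b
  have m1 := LB_mono W a b
  have m2 := Gv_mono' J W a b
  constructor <;> omega

theorem cross_all (J : ℕ → ℕ) (W : ℕ × ℕ → ℕ) (b : ℕ) :
    (∀ a, Gv J W 0 (a+1) b + LB W a b ≤ Gv J W 0 a b + LB W (a+1) b) := by
  induction b with
  | zero =>
    intro a
    have := v3 J W a
    have := l3 W a
    omega
  | succ b ih =>
    have V : ∀ a, LB W a (b+1) + Gv J W 0 a b ≤ Gv J W 0 a (b+1) + LB W a b := by
      intro a
      induction a with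
      | zero =>
        have := v4 J W b
        have := l4 W b
        omega
      | succ a iha => exact (cross_step J W a b (ih a) iha).2
    intro a
    exact (cross_step J W a b (ih a) (V a)).1

theorem pf_CMV : T_CMV := by
  intro J W k a b hk
  obtain ⟨d, rfl⟩ := Nat.exists_eq_add_of_le hk
  clear hk
  induction d with
  | zero => exact le_rfl
  | succ d ih =>
    have h := cross_all J W b (k + d)
    have e : k + (d + 1) = k + d + 1 := rfl
    rw [e]
    omega

/-! ## Reversal -/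

theorem Gq_congr (w w' : ℕ → ℕ → ℕ) : ∀ a b : ℕ, (∀ i ≤ a, ∀ j ≤ b, w i j = w' i j) →
    Gq w a b = Gq w' a b := by
  intro a
  induction a with
  | zero =>
    intro b
    induction b with
    | zero => intro h; rw [r0, r0]; exact h 0 le_rfl 0 le_rfl
    | succ b ih =>
      intro h
      simp only [Gq]
      rw [ih (fun i hi j hj => h i hi j (by omega)), h 0 le_rfl (b+1) le_rfl]
  | succ a iha =>
    intro b
    induction b with
    | zero =>
      intro h
      simp only [Gq]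
      rw [iha 0 (fun i hi j hj => h i (by omega) j hj), h (a+1) le_rfl 0 le_rfl]
    | succ b ihb =>
      intro h
      simp only [Gq]
      rw [iha (b+1) (fun i hi j hj => h i (by omega) j hj),
        ihb (fun i hi j hj => h i hi j (by omega)), h (a+1) le_rfl (b+1) le_rfl]

theorem back_bot (w : ℕ → ℕ → ℕ) (a : ℕ) :
    Gq w (a+1) 0 = w 0 0 + Gq (fun i j => w (i+1) j) a 0 := by
  induction a with
  | zero => rw [rb, r0, r0]
  | succ a ih =>
    have e1 := rb w (a+1)
    have e2 := rb (fun i j => w (i+1) j) a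
    omega

theorem back_left (w : ℕ → ℕ → ℕ) (b : ℕ) :
    Gq w 0 (b+1) = w 0 0 + Gq (fun i j => w i (j+1)) 0 b := by
  induction b with
  | zero => rw [rl, r0, r0]
  | succ b ih =>
    have e1 := rl w (b+1)
    have e2 := rl (fun i j => w i (j+1)) b
    omega

theorem back (w : ℕ → ℕ → ℕ) : ∀ a b : ℕ, Gq w (a+1) (b+1) =
    w 0 0 + max (Gq (fun i j => w (i+1) j) a (b+1)) (Gq (fun i j => w i (j+1)) (a+1) b) := by
  intro a
  induction a with
  | zero =>
    intro b
    induction b with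
    | zero =>
      have := rr w 0 0
      have := rb w 0
      have := rl w 0
      have := r0 w
      have := rl (fun i j => w (i+1) j) 0
      have := rb (fun i j => w i (j+1)) 0
      have := r0 (fun i j => w (i+1) j)
      have := r0 (fun i j => w i (j+1))
      simp only [Nat.zero_add] at *
      omega
    | succ b ih =>
      have e1 := rr w 0 (b+1)
      have e2 := back_left w (b+1)
      have e3 := rl (fun i j => w (i+1) j) (b+1)
      have e4 := rr (fun i j => w i (j+1)) 0 b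
      simp only [Nat.zero_add] at *
      omega
  | succ a iha =>
    intro b
    induction b with
    | zero =>
      have e1 := rr w (a+1) 0
      have e2 := back_bot w (a+1)
      have e3 := rr (fun i j => w (i+1) j) a 0
      have e4 := rb (fun i j => w i (j+1)) (a+1)
      have e5 := iha 0
      simp only [Nat.zero_add] at e1 e2 e3 e4 e5 ⊢
      omega
    | succ b ihb =>
      have e1 := rr w (a+1) (b+1)
      have e3 := rr (fun i j => w (i+1) j) a (b+1)
      have e4 := rr (fun i j => w i (j+1)) (a+1) b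
      have e5 := iha (b+1)
      omega

theorem Gq_rev (w : ℕ → ℕ → ℕ) : ∀ a b : ℕ,
    Gq w a b = Gq (fun i j => w (a - i) (b - j)) a b := by
  intro a
  induction a with
  | zero =>
    intro b
    induction b with
    | zero => rw [r0, r0]
    | succ b ih =>
      rw [back_left (fun i j => w (0 - i) (b + 1 - j)) b]
      have e : Gq (fun i j => w (0 - i) (b + 1 - (j + 1))) 0 b =
          Gq (fun i j => w (0 - i) (b - j)) 0 b :=
        Gq_congr _ _ 0 b fun i _ j _ => by
          have : b + 1 - (j + 1) = b - j := by omega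
          simp only [this]
      rw [e, ← ih]
      have e1 := rl w b
      simp only [Nat.sub_zero]
      omega
  | succ a iha =>
    intro b
    induction b with
    | zero =>
      rw [back_bot (fun i j => w (a + 1 - i) (0 - j)) a]
      have e : Gq (fun i j => w (a + 1 - (i + 1)) (0 - j)) a 0 =
          Gq (fun i j => w (a - i) (0 - j)) a 0 :=
        Gq_congr _ _ a 0 fun i _ j _ => by
          have : a + 1 - (i + 1) = a - i := by omega
          simp only [this]
      rw [e, ← iha 0]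
      have e1 := rb w a
      simp only [Nat.sub_zero]
      omega
    | succ b ihb =>
      rw [back (fun i j => w (a + 1 - i) (b + 1 - j)) a b]
      have e : Gq (fun i j => w (a + 1 - (i + 1)) (b + 1 - j)) a (b+1) =
          Gq (fun i j => w (a - i) (b + 1 - j)) a (b+1) :=
        Gq_congr _ _ a (b+1) fun i _ j _ => by
          have : a + 1 - (i + 1) = a - i := by omega
          simp only [this]
      have e' : Gq (fun i j => w (a + 1 - i) (b + 1 - (j + 1))) (a+1) b =
          Gq (fun i j => w (a + 1 - i) (b - j)) (a+1) b :=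
        Gq_congr _ _ (a+1) b fun i _ j _ => by
          have : b + 1 - (j + 1) = b - j := by omega
          simp only [this]
      rw [e, e', ← iha (b+1), ← ihb]
      have e1 := rr w a b
      simp only [Nat.sub_zero]
      omega

theorem pf_REV : T_REV := by
  intro W a b k hk
  unfold LB
  rw [Gq_rev]
  refine Gq_congr _ _ _ _ fun i hi j hj => ?_
  have c : i ≤ a ∧ j ≤ b := ⟨by omega, hj⟩
  simp only [hs, rfl2, c, and_self, if_true]
  congr 2
  omega

end Pool.Agent.H54.GL
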